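import Pool.Agent.Helper78.JT.Goals3
import Pool.Agent.Helper78.DT.Av

/-!
# JT-CKT: `scan` overlooks only few assignments
-/

set_option autoImplicit false

namespace Pool.Agent.Helper60.JT

open Pool.Agent.Helper78.JT Pool.Agent.Helper78.DT
open scoped Classical

variable {n : ℕ}

/-- `σ` on `A`, `x` elsewhere -/
noncomputable def mix (A : Finset (Fin n)) (σ x : Fin n → Bool) : Fin n → Bool :=
  fun v => if v ∈ A then σ v else x v

noncomputable def PP (A : Finset (Fin n)) (σ : Fin n → Bool) (E : (Fin n → Bool) → Prop) : ℝ :=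
  pr fun x => E (mix A σ x)

noncomputable def AQ (n : ℕ) (Q : List ℕ) : Finset (Fin n) :=
  Finset.univ.filter fun v => (v : ℕ) ∈ Q

theorem mem_AQ (Q : List ℕ) (v : Fin n) : v ∈ AQ n Q ↔ (v : ℕ) ∈ Q := by simp [AQ]

theorem av_half (v : Fin n) (F : (Fin n → Bool) → ℝ) :
    av F = (av (fun x => F (Function.update x v true)) +
      av (fun x => F (Function.update x v false))) / 2 := by
  have hinv : Function.Involutive (fun x : Fin n → Bool => Function.update x v (!x v)) := by
    intro x
    funext w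
    by_cases hw : w = v
    · subst hw; simp
    · simp [Function.update_of_ne hw]
  have h1 : (∑ x : Fin n → Bool, F (Function.update x v (!x v))) = ∑ x, F x :=
    Equiv.sum_comp (hinv.toPerm _) F
  have h2 : ∀ x : Fin n → Bool, F (Function.update x v true) + F (Function.update x v false) =
      F x + F (Function.update x v (!x v)) := by
    intro x
    have h3 : Function.update x v (x v) = x := Function.update_eq_self v x
    cases hx : x v
    · rw [hx] at h3
      rw [h3]
      simp only [Bool.not_false]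
      ring
    · rw [hx] at h3
      rw [h3]
      simp only [Bool.not_true]
  unfold av
  have h4 : (∑ x : Fin n → Bool, F (Function.update x v true)) +
      (∑ x : Fin n → Bool, F (Function.update x v false)) = 2 * ∑ x, F x := by
    rw [← Finset.sum_add_distrib, Finset.sum_congr rfl fun x _ => h2 x, Finset.sum_add_distrib, h1]
    ring
  rw [← add_div, h4]
  ring

theorem mix_upd {A : Finset (Fin n)} {v : Fin n} (hv : v ∉ A) (σ x : Fin n → Bool) (b : Bool) :
    mix A σ (Function.update x v b) = mix (insert v A) (Function.update σ v b) x := by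
  funext w
  unfold mix
  by_cases hw : w = v
  · subst hw; simp [hv]
  · simp [hw, Function.update_of_ne hw]

theorem PP_step {A : Finset (Fin n)} {v : Fin n} (hv : v ∉ A) (σ : Fin n → Bool)
    (E : (Fin n → Bool) → Prop) :
    PP A σ E = (PP (insert v A) (Function.update σ v true) E +
      PP (insert v A) (Function.update σ v false) E) / 2 := by
  unfold PP pr
  rw [av_half v]
  simp only [mix_upd hv]

theorem PP_step' {A : Finset (Fin n)} {v : Fin n} (hv : v ∉ A) (σ : Fin n → Bool) (b : Bool)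
    (E : (Fin n → Bool) → Prop) :
    PP A σ E = (PP (insert v A) (Function.update σ v b) E +
      PP (insert v A) (Function.update σ v (!b)) E) / 2 := by
  rw [PP_step hv]
  cases b
  · simp only [Bool.not_false]; ring
  · simp only [Bool.not_true]

theorem PP_mono {A : Finset (Fin n)} {σ : Fin n → Bool} {E E' : (Fin n → Bool) → Prop}
    (h : ∀ x, (∀ v ∈ A, x v = σ v) → E x → E' x) : PP A σ E ≤ PP A σ E' :=
  pr_mono fun x hx => h _ (fun v hv => by simp [mix, hv]) hx

theorem PP_le_one (A : Finset (Fin n)) (σ : Fin n → Bool) (E : (Fin n → Bool) → Prop) :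
    PP A σ E ≤ 1 := pr_le_one _

theorem PP_false {A : Finset (Fin n)} {σ : Fin n → Bool} {E : (Fin n → Bool) → Prop}
    (h : ∀ x, (∀ v ∈ A, x v = σ v) → ¬ E x) : PP A σ E ≤ 0 := by
  have h1 : ∀ x, ¬ E (mix A σ x) := fun x => h _ (fun v hv => by simp [mix, hv])
  unfold PP pr av
  simp [h1]

theorem PP_fix (B : Finset (Fin n)) (E : (Fin n → Bool) → Prop) (c : ℝ) :
    ∀ (A : Finset (Fin n)) (σ : Fin n → Bool), (∀ σ', PP (A ∪ B) σ' E ≤ c) → PP A σ E ≤ c := by
  induction B using Finset.induction_on with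
  | empty => intro A σ h; simpa using h σ
  | insert v B hv ih =>
    intro A σ h
    by_cases hA : v ∈ A
    · apply ih
      intro σ'
      have : A ∪ insert v B = A ∪ B := by
        ext w; simp only [Finset.mem_union, Finset.mem_insert]
        constructor
        · rintro (h1 | h1 | h1)
          · exact Or.inl h1
          · exact Or.inl (h1 ▸ hA)
          · exact Or.inr h1
        · rintro (h1 | h1)
          · exact Or.inl h1
          · exact Or.inr (Or.inr h1)
      rw [← this]; exact h σ'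
    · rw [PP_step hA]
      have h1 : ∀ τ, PP (insert v A) τ E ≤ c := by
        intro τ
        apply ih
        intro σ'
        have : insert v A ∪ B = A ∪ insert v B := by
          ext w; simp only [Finset.mem_union, Finset.mem_insert]; tauto
        rw [this]; exact h σ'
      linarith [h1 (Function.update σ v true), h1 (Function.update σ v false)]

theorem PP_sub {A A' : Finset (Fin n)} (hA : A ⊆ A') (E : (Fin n → Bool) → Prop) (c : ℝ)
    (σ : Fin n → Bool) (h : ∀ σ', PP A' σ' E ≤ c) : PP A σ E ≤ c := by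
  apply PP_fix A'
  rw [Finset.union_eq_right.2 hA]
  exact h

/-- the bound -/
noncomputable def g (k s s' M : ℕ) : ℝ := (1 - 1 / 2 ^ k) ^ s + 3 ^ M * (2 / 3 : ℝ) ^ s'

theorem q_nonneg (k : ℕ) : (0 : ℝ) ≤ 1 - 1 / 2 ^ k := by
  have h : (1 : ℝ) ≤ 2 ^ k := one_le_pow₀ (by norm_num)
  have : (1 : ℝ) / 2 ^ k ≤ 1 := by rw [div_le_one (by positivity)]; exact h
  linarith

theorem g_nonneg (k s s' M : ℕ) : 0 ≤ g k s s' M := by
  have := pow_nonneg (q_nonneg k) s
  unfold g; positivity

theorem g_zero_left (k s' M : ℕ) : 1 ≤ g k 0 s' M := by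
  unfold g; rw [pow_zero]; have : (0 : ℝ) ≤ 3 ^ M * (2 / 3 : ℝ) ^ s' := by positivity
  linarith

theorem g_zero_right (k s M : ℕ) : 1 ≤ g k s 0 M := by
  unfold g
  have := pow_nonneg (q_nonneg k) s
  have h : (1 : ℝ) ≤ 3 ^ M := one_le_pow₀ (by norm_num)
  simp only [pow_zero, mul_one]
  linarith

theorem g_mono (k s s' M : ℕ) : g k s s' M ≤ g k s s' (M + 1) := by
  unfold g
  have : (3 : ℝ) ^ M * (2 / 3 : ℝ) ^ s' ≤ 3 ^ (M + 1) * (2 / 3 : ℝ) ^ s' := by
    apply mul_le_mul_of_nonneg_right _ (by positivity)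
    rw [pow_succ]
    have : (0 : ℝ) < 3 ^ M := by positivity
    linarith
  linarith

theorem g_step (k s s' M : ℕ) : (1 - 1 / 2 ^ k) * g k s s' M ≤ g k (s + 1) s' M := by
  unfold g
  have h0 := q_nonneg k
  have h1 : (1 : ℝ) - 1 / 2 ^ k ≤ 1 := by
    have : (0 : ℝ) ≤ 1 / 2 ^ k := by positivity
    linarith
  have h2 : (0 : ℝ) ≤ 3 ^ M * (2 / 3 : ℝ) ^ s' := by positivity
  have h3 := mul_le_mul_of_nonneg_right h1 h2
  rw [pow_succ]
  nlinarith

theorem g_avg (k s t M : ℕ) : (g k s t M + g k s t (M + 1)) / 2 = g k s (t + 1) (M + 1) := by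
  unfold g; rw [pow_succ (3 : ℝ) M, pow_succ (2 / 3 : ℝ) t]; ring

theorem cf_eq (x : Fin n → Bool) (v : Fin n) : cf x (v : ℕ) = x v := by
  unfold cf; simp

theorem cf_lt (x : Fin n → Bool) {v : ℕ} (h : v < n) : cf x v = x ⟨v, h⟩ := by
  unfold cf; simp [h]

theorem cf_ge (x : Fin n → Bool) {v : ℕ} (h : n ≤ v) : cf x v = false := by
  unfold cf; simp [h]

theorem coin_cf (x : Fin n → Bool) (v : ℕ) : coin x v = cf x v := rfl

/-- literals whose variable is in `A` or `≥ n` are false -/
def Fa (A : Finset (Fin n)) (σ : Fin n → Bool) (D : Clause) : Prop :=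
  ∀ p ∈ D, (∀ h : p.1 < n, (⟨p.1, h⟩ : Fin n) ∈ A) → cf σ p.1 ≠ p.2

/-- no opposite literals -/
def No (D : Clause) : Prop := ∀ p ∈ D, (p.1, !p.2) ∉ D

theorem fa_lit {A : Finset (Fin n)} {σ x : Fin n → Bool} (hx : ∀ v ∈ A, x v = σ v)
    {p : ℕ × Bool} (hp : ∀ h : p.1 < n, (⟨p.1, h⟩ : Fin n) ∈ A) : cf x p.1 = cf σ p.1 := by
  by_cases h : p.1 < n
  · rw [cf_lt x h, cf_lt σ h]; exact hx _ (hp h)
  · rw [cf_ge x (by omega), cf_ge σ (by omega)]

theorem fa_tail {A : Finset (Fin n)} {σ : Fin n → Bool} {p : ℕ × Bool} {D : Clause}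
    (h : Fa A σ (p :: D)) : Fa A σ D := fun q hq => h q (List.mem_cons_of_mem _ hq)

theorem no_tail {p : ℕ × Bool} {D : Clause} (h : No (p :: D)) : No D :=
  fun q hq h' => h q (List.mem_cons_of_mem _ hq) (List.mem_cons_of_mem _ h')

theorem fa_upd {A : Finset (Fin n)} {σ : Fin n → Bool} {p : ℕ × Bool} {D : Clause}
    (h : Fa A σ (p :: D)) (hno : No (p :: D)) (hv : p.1 < n) :
    Fa (insert ⟨p.1, hv⟩ A) (Function.update σ ⟨p.1, hv⟩ (!p.2)) D := by
  intro q hq hqA
  by_cases hqp : q.1 = p.1
  · have hlt : q.1 < n := hqp ▸ hv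
    rw [cf_lt _ hlt]
    have : (⟨q.1, hlt⟩ : Fin n) = ⟨p.1, hv⟩ := Fin.ext hqp
    rw [this, Function.update_self]
    intro h2
    apply hno p (List.mem_cons_self ..)
    have : (p.1, !p.2) = q := by
      ext
      · exact hqp.symm
      · simp [h2]
    rw [this]
    exact List.mem_cons_of_mem _ hq
  · have h3 : cf (Function.update σ ⟨p.1, hv⟩ (!p.2)) q.1 = cf σ q.1 := by
      by_cases hlt : q.1 < n
      · rw [cf_lt _ hlt, cf_lt _ hlt, Function.update_of_ne]
        intro h4; exact hqp (congrArg Fin.val h4)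
      · rw [cf_ge _ (by omega), cf_ge _ (by omega)]
    rw [h3]
    apply h q (List.mem_cons_of_mem _ hq)
    intro hlt
    have := hqA hlt
    rw [Finset.mem_insert] at this
    rcases this with h4 | h4
    · exact absurd (congrArg Fin.val h4) hqp
    · exact h4

theorem short_clause (c : ℝ) (hc : 0 ≤ c) (A' : Finset (Fin n)) (E0 : (Fin n → Bool) → Prop)
    (hE : ∀ σ, PP A' σ E0 ≤ c) : ∀ (D : Clause) (A : Finset (Fin n)) (σ : Fin n → Bool),
    A ⊆ A' → (∀ p ∈ D, ∀ h : p.1 < n, (⟨p.1, h⟩ : Fin n) ∈ A') → Fa A σ D → No D →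
    PP A σ (fun x => (∃ p ∈ D, cf x p.1 = p.2) ∧ E0 x) ≤ (1 - 1 / 2 ^ D.length) * c := by
  intro D
  induction D with
  | nil =>
    intro A σ _ _ _ _
    refine (PP_false ?_).trans (by simp)
    rintro x _ ⟨⟨p, hp, _⟩, _⟩
    exact absurd hp (by simp)
  | cons p D ih =>
    intro A σ hA hD hfa hno
    have hlen : (1 : ℝ) / 2 ^ (p :: D).length = 1 / 2 ^ D.length / 2 := by
      rw [List.length_cons, pow_succ]; field_simp
    have hpos : (0 : ℝ) < 1 / 2 ^ D.length := by positivity
    by_cases hp : ∀ h : p.1 < n, (⟨p.1, h⟩ : Fin n) ∈ A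
    · have h1 := ih A σ hA (fun q hq => hD q (List.mem_cons_of_mem _ hq)) (fa_tail hfa)
        (no_tail hno)
      refine (PP_mono ?_).trans (h1.trans ?_)
      · rintro x hx ⟨⟨q, hq, hq2⟩, hx0⟩
        rcases List.mem_cons.1 hq with rfl | hq
        · exact absurd ((fa_lit hx hp).symm.trans hq2) (hfa _ (List.mem_cons_self ..) hp)
        · exact ⟨⟨q, hq, hq2⟩, hx0⟩
      · rw [hlen]
        apply mul_le_mul_of_nonneg_right _ hc
        linarith
    · push_neg at hp
      obtain ⟨hv, hvA⟩ := hp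
      rw [PP_step' hvA σ p.2]
      have hins : insert (⟨p.1, hv⟩ : Fin n) A ⊆ A' :=
        Finset.insert_subset (hD p (List.mem_cons_self ..) hv) hA
      have h1 : PP (insert ⟨p.1, hv⟩ A) (Function.update σ ⟨p.1, hv⟩ p.2)
          (fun x => (∃ q ∈ p :: D, cf x q.1 = q.2) ∧ E0 x) ≤ c := by
        refine (PP_mono (E' := E0) fun x _ hx => hx.2).trans ?_
        exact PP_sub hins E0 c _ hE
      have h2 : PP (insert ⟨p.1, hv⟩ A) (Function.update σ ⟨p.1, hv⟩ (!p.2))
          (fun x => (∃ q ∈ p :: D, cf x q.1 = q.2) ∧ E0 x) ≤ (1 - 1 / 2 ^ D.length) * c := by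
        refine (PP_mono ?_).trans (ih (insert ⟨p.1, hv⟩ A) _ hins
          (fun q hq => hD q (List.mem_cons_of_mem _ hq)) (fa_upd hfa hno hv) (no_tail hno))
        rintro x hx ⟨⟨q, hq, hq2⟩, hx0⟩
        rcases List.mem_cons.1 hq with rfl | hq
        · have h3 := hx ⟨q.1, hv⟩ (Finset.mem_insert_self ..)
          rw [Function.update_self] at h3
          rw [cf_lt x hv, h3] at hq2
          cases hq3 : q.2 <;> simp [hq3] at hq2
        · exact ⟨⟨q, hq, hq2⟩, hx0⟩
      rw [hlen]
      nlinarith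

/-- reading a clause with `rdl`, and then the rest -/
def rest (n k : ℕ) (b : ℕ → Bool) (F : List Clause) (s : ℕ) (D : Clause) (s' : ℕ) (Q : List ℕ) :
    Option (List ℕ) :=
  match rdl n b D s' Q with
  | some (u, Q') => scan n k b F s u Q'
  | none => none

theorem AQ_cons (Q : List ℕ) {v : ℕ} (hv : v < n) :
    AQ n (v :: Q) = insert ⟨v, hv⟩ (AQ n Q) := by
  ext w
  rw [mem_AQ, Finset.mem_insert, mem_AQ, List.mem_cons, Fin.ext_iff]

theorem mem_AQ' {Q : List ℕ} {v : ℕ} : (∀ h : v < n, (⟨v, h⟩ : Fin n) ∈ AQ n Q) ↔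
    (v ∈ Q ∨ n ≤ v) := by
  constructor
  · intro h
    by_cases hv : v < n
    · exact Or.inl ((mem_AQ Q _).1 (h hv))
    · exact Or.inr (by omega)
  · rintro (h | h) hv
    · exact (mem_AQ Q _).2 h
    · omega

theorem long_clause (k : ℕ) (F : List Clause) (s M : ℕ)
    (hF : ∀ (s' : ℕ) (Q : List ℕ) (σ : Fin n → Bool), PP (AQ n Q) σ
      (fun x => Holds x F ∧ scan n k (cf x) F s s' Q = none) ≤ g k s s' M) :
    ∀ (D : Clause) (s' : ℕ) (Q : List ℕ) (σ : Fin n → Bool), Fa (AQ n Q) σ D → No D →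
    PP (AQ n Q) σ (fun x => (∃ p ∈ D, cf x p.1 = p.2) ∧ Holds x F ∧
      rest n k (cf x) F s D s' Q = none) ≤ g k s s' (M + 1) := by
  intro D
  induction D with
  | nil =>
    intro s' Q σ _ _
    refine (PP_false ?_).trans (g_nonneg ..)
    rintro x _ ⟨⟨p, hp, _⟩, _⟩
    exact absurd hp (by simp)
  | cons p D ih =>
    intro s' Q σ hfa hno
    by_cases hp : p.1 ∈ Q ∨ n ≤ p.1
    · refine (PP_mono ?_).trans (ih s' Q σ (fa_tail hfa) (no_tail hno))
      rintro x hx ⟨⟨q, hq, hq2⟩, hx0, hx1⟩
      have hpf : cf x p.1 ≠ p.2 := by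
        rw [fa_lit hx (mem_AQ'.2 hp)]
        exact hfa _ (List.mem_cons_self ..) (mem_AQ'.2 hp)
      refine ⟨?_, hx0, ?_⟩
      · rcases List.mem_cons.1 hq with rfl | hq
        · exact absurd hq2 hpf
        · exact ⟨q, hq, hq2⟩
      · unfold rest at hx1 ⊢
        rw [rdl, if_pos hp, if_neg hpf] at hx1
        exact hx1
    · have hv : p.1 < n := by
        by_contra h; exact hp (Or.inr (by omega))
      have hvQ : p.1 ∉ Q := fun h => hp (Or.inl h)
      rcases Nat.eq_zero_or_pos s' with rfl | hs'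
      · exact (PP_le_one ..).trans (g_zero_right ..)
      obtain ⟨t, rfl⟩ : ∃ t, s' = t + 1 := ⟨s' - 1, by omega⟩
      have hvA : (⟨p.1, hv⟩ : Fin n) ∉ AQ n Q := by rw [mem_AQ]; exact hvQ
      rw [PP_step' hvA σ p.2, ← AQ_cons Q hv, ← g_avg]
      have h1 : PP (AQ n (p.1 :: Q)) (Function.update σ ⟨p.1, hv⟩ p.2)
          (fun x => (∃ q ∈ p :: D, cf x q.1 = q.2) ∧ Holds x F ∧
            rest n k (cf x) F s (p :: D) (t + 1) Q = none) ≤ g k s t M := by
        refine (PP_mono ?_).trans (hF t (p.1 :: Q) _)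
        rintro x hx ⟨_, hx0, hx1⟩
        refine ⟨hx0, ?_⟩
        have h3 := hx ⟨p.1, hv⟩ (by rw [mem_AQ]; exact List.mem_cons_self ..)
        rw [Function.update_self, ← cf_lt x hv] at h3
        unfold rest at hx1
        rw [rdl, if_neg hp, if_neg (by omega), if_pos h3] at hx1
        simpa using hx1
      have h2 : PP (AQ n (p.1 :: Q)) (Function.update σ ⟨p.1, hv⟩ (!p.2))
          (fun x => (∃ q ∈ p :: D, cf x q.1 = q.2) ∧ Holds x F ∧
            rest n k (cf x) F s (p :: D) (t + 1) Q = none) ≤ g k s t (M + 1) := by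
        refine (PP_mono ?_).trans (ih t (p.1 :: Q) _ (by
          rw [AQ_cons Q hv]; exact fa_upd hfa hno hv) (no_tail hno))
        rintro x hx ⟨⟨q, hq, hq2⟩, hx0, hx1⟩
        have h3 := hx ⟨p.1, hv⟩ (by rw [mem_AQ]; exact List.mem_cons_self ..)
        rw [Function.update_self, ← cf_lt x hv] at h3
        have h4 : cf x p.1 ≠ p.2 := by
          rw [h3]; cases p.2 <;> simp
        refine ⟨?_, hx0, ?_⟩
        · rcases List.mem_cons.1 hq with rfl | hq
          · exact absurd hq2 h4
          · exact ⟨q, hq, hq2⟩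
        · unfold rest at hx1 ⊢
          rw [rdl, if_neg hp, if_neg (by omega), if_neg h4] at hx1
          simpa using hx1
      linarith

theorem known_congr {x σ : Fin n → Bool} {Q : List ℕ} (hx : ∀ v ∈ AQ n Q, x v = σ v)
    (C : Clause) : known n (cf x) Q C = known n (cf σ) Q C := by
  unfold known
  congr 1
  rw [Bool.eq_iff_iff, List.any_eq_true, List.any_eq_true]
  have key : ∀ p : ℕ × Bool, ((decide (cf x p.1 = p.2) && (decide (p.1 ∈ Q) || decide (n ≤ p.1)))
      = true ↔ (decide (cf σ p.1 = p.2) && (decide (p.1 ∈ Q) || decide (n ≤ p.1))) = true) := by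
    intro p
    simp only [Bool.and_eq_true, Bool.or_eq_true, decide_eq_true_eq]
    constructor
    · rintro ⟨h1, h2⟩
      exact ⟨by rw [← fa_lit hx (mem_AQ'.2 h2)]; exact h1, h2⟩
    · rintro ⟨h1, h2⟩
      exact ⟨by rw [fa_lit hx (mem_AQ'.2 h2)]; exact h1, h2⟩
  constructor
  · rintro ⟨p, hp, h⟩; exact ⟨p, hp, (key p).1 h⟩
  · rintro ⟨p, hp, h⟩; exact ⟨p, hp, (key p).2 h⟩

theorem main (k : ℕ) : ∀ (F : List Clause) (s s' : ℕ) (Q : List ℕ) (σ : Fin n → Bool),
    PP (AQ n Q) σ (fun x => Holds x F ∧ scan n k (cf x) F s s' Q = none) ≤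
      g k s s' (F.filter fun C => decide (k < C.length)).length := by
  intro F
  induction F with
  | nil =>
    intro s s' Q σ
    refine (PP_false ?_).trans (g_nonneg ..)
    rintro x _ ⟨_, h⟩
    simp [scan] at h
  | cons C F ih =>
    intro s s' Q σ
    have hH : ∀ x : Fin n → Bool, Holds x (C :: F) → (∃ p ∈ C, cf x p.1 = p.2) ∧ Holds x F := by
      intro x hx
      exact ⟨hx C (List.mem_cons_self ..), fun D hD => hx D (List.mem_cons_of_mem _ hD)⟩
    by_cases hk : known n (cf σ) Q C = true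
    · have h1 : PP (AQ n Q) σ (fun x => Holds x (C :: F) ∧
          scan n k (cf x) (C :: F) s s' Q = none) ≤
          g k s s' (F.filter fun C => decide (k < C.length)).length := by
        refine (PP_mono ?_).trans (ih s s' Q σ)
        rintro x hx ⟨h2, h3⟩
        refine ⟨(hH x h2).2, ?_⟩
        rw [scan, if_pos (by rw [known_congr hx]; exact hk)] at h3
        exact h3
      refine h1.trans ?_
      rw [List.filter_cons]
      split_ifs
      · rw [List.length_cons]; exact g_mono ..
      · exact le_refl _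
    · have hfa : Fa (AQ n Q) σ C := by
        intro p hp hpA h2
        apply hk
        unfold known
        rw [Bool.or_eq_true]
        right
        rw [List.any_eq_true]
        refine ⟨p, hp, ?_⟩
        have := mem_AQ'.1 hpA
        simp only [Bool.and_eq_true, Bool.or_eq_true, decide_eq_true_eq]
        exact ⟨h2, this⟩
      have hno : No C := by
        intro p hp h2
        apply hk
        unfold known opp
        rw [Bool.or_eq_true]
        left
        rw [List.any_eq_true]
        exact ⟨p, hp, by simpa using h2⟩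
      by_cases hC : C.length ≤ k
      · rw [List.filter_cons, if_neg (by simpa using hC)]
        rcases Nat.eq_zero_or_pos s with rfl | hs
        · exact (PP_le_one ..).trans (g_zero_left ..)
        obtain ⟨t, rfl⟩ : ∃ t, s = t + 1 := ⟨s - 1, by omega⟩
        set M := (F.filter fun C => decide (k < C.length)).length with hM
        have h1 := short_clause (g k t s' M) (g_nonneg ..) (AQ n (C.map Prod.fst ++ Q))
          (fun x => Holds x F ∧ scan n k (cf x) F t s' (C.map Prod.fst ++ Q) = none)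
          (fun σ => ih t s' _ σ) C (AQ n Q) σ
          (fun v hv => (mem_AQ _ _).2 (List.mem_append.2 (Or.inr ((mem_AQ _ _).1 hv))))
          (fun p hp h => (mem_AQ _ _).2 (List.mem_append.2 (Or.inl
            (List.mem_map.2 ⟨p, hp, rfl⟩)))) hfa hno
        refine (PP_mono ?_).trans (h1.trans ?_)
        · rintro x hx ⟨h2, h3⟩
          obtain ⟨h4, h5⟩ := hH x h2
          refine ⟨h4, h5, ?_⟩
          have h6 : (C.any fun p => decide (cf x p.1 = p.2)) = true := by
            rw [List.any_eq_true]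
            obtain ⟨p, hp, hp2⟩ := h4
            exact ⟨p, hp, by simpa using hp2⟩
          rw [scan, if_neg (by rw [known_congr hx]; exact hk), if_pos hC, if_neg (by omega),
            if_pos h6] at h3
          simpa using h3
        · have h7 : (1 : ℝ) - 1 / 2 ^ C.length ≤ 1 - 1 / 2 ^ k := by
            have : (1 : ℝ) / 2 ^ k ≤ 1 / 2 ^ C.length := by
              apply one_div_le_one_div_of_le (by positivity)
              exact pow_le_pow_right₀ (by norm_num) hC
            linarith
          exact (mul_le_mul_of_nonneg_right h7 (g_nonneg ..)).trans (g_step ..)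
      · rw [List.filter_cons, if_pos (by simpa using hC), List.length_cons]
        refine (PP_mono ?_).trans (long_clause k F s _ (fun s' Q σ => ih s s' Q σ) C s' Q σ hfa
          hno)
        rintro x hx ⟨h2, h3⟩
        obtain ⟨h4, h5⟩ := hH x h2
        refine ⟨h4, h5, ?_⟩
        rw [scan, if_neg (by rw [known_congr hx]; exact hk), if_neg hC] at h3
        exact h3

theorem ckt : CktStmt := by
  intro n k s s' F
  have h := main (n := n) k F s s' [] (fun _ => false)
  have h1 : AQ n [] = ∅ := by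
    ext v; simp [mem_AQ]
  unfold PP at h
  rw [h1] at h
  have h2 : ∀ x : Fin n → Bool, mix ∅ (fun _ => false) x = x := by
    intro x; funext v; simp [mix]
  simp only [h2] at h
  exact h

end Pool.Agent.Helper60.JT
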